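import Mathlib
import Pool.Agent.W5h43.SG.Main

set_option autoImplicit false

/-!
# The Sierpinski-triangle Julia set is quasisymmetric to the Sierpinski triangle

The Julia set of `f(z) = (z³ - 16/27) / z` is quasisymmetrically equivalent to the standard
Sierpinski triangle.
-/

namespace Pool.Agent.Results.MP_6f5a85_an.SierpinskiJulia

open Set Topology Filter OnePoint
open scoped NNReal

open Classical in
/-- The rational map `f(z) = (z³ - 16/27) / z` on the Riemann sphere `OnePoint ℂ`, with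
`f(0) = f(∞) = ∞`. -/
noncomputable def f : OnePoint ℂ → OnePoint ℂ
  | ∞ => ∞
  | OnePoint.some z => if z = 0 then ∞ else (((z ^ 3 - 16 / 27) / z : ℂ) : OnePoint ℂ)

/-- The Fatou set: the points with an open neighbourhood on which the family of the iterates of
`f` is equicontinuous. The entourages of the (unique) uniform structure of the compact Hausdorff
space `OnePoint ℂ`, which is the one given by the spherical metric, are the neighbourhoods of the
diagonal. -/
def fatou : Set (OnePoint ℂ) :=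
  {x | ∃ U : Set (OnePoint ℂ), IsOpen U ∧ x ∈ U ∧ ∀ y ∈ U,
    ∀ V ∈ 𝓝ˢ (Set.diagonal (OnePoint ℂ)), ∀ᶠ z in 𝓝 y, ∀ n : ℕ, (f^[n] y, f^[n] z) ∈ V}

/-- The Julia set in the sphere. -/
def julia : Set (OnePoint ℂ) := fatouᶜ

/-- The Julia set as a subset of the plane (`∞` is not in the Julia set, see `result`); it
carries the Euclidean metric. -/
def J : Set ℂ := {z | (z : OnePoint ℂ) ∈ julia}

/-- `S` is a nonempty compact set with `S = φ₁(S) ∪ φ₂(S) ∪ φ₃(S)`, `φᵢ(x) = (x + vᵢ) / 2`. -/
def IsSierpinski (v : Fin 3 → EuclideanSpace ℝ (Fin 2)) (S : Set (EuclideanSpace ℝ (Fin 2))) :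
    Prop :=
  IsCompact S ∧ S.Nonempty ∧ S = ⋃ i, (fun x => (1 / 2 : ℝ) • (x + v i)) '' S

/-- Quasisymmetric homeomorphisms. -/
def Quasisymmetric {X Y : Type} [MetricSpace X] [MetricSpace Y] (h : X ≃ₜ Y) : Prop :=
  ∃ η : ℝ≥0 ≃ₜ ℝ≥0, ∀ x a b : X, x ≠ b →
    nndist (h x) (h a) / nndist (h x) (h b) ≤ η (nndist x a / nndist x b)

open Pool.Agent.W5h43.SG in
lemma f_eq : f = fh := by
  funext x
  induction x using OnePoint.rec with
  | infty => rfl
  | coe z => rfl

open Pool.Agent.W5h43.SG in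
lemma julia_eq : julia = {x | ¬ IsFatou fh x} := by
  unfold julia fatou IsFatou
  rw [f_eq]
  rfl

open Pool.Agent.W5h43.SG in
lemma J_eq : J = Jf := by
  unfold J
  rw [julia_eq]
  rfl

/-- **Q1 has a positive answer.** The Julia set of `f(z) = (z³ - 16/27) / z` is a nonempty compact
subset of the plane, and for every equilateral triangle in the plane there is exactly one
Sierpinski triangle `S` with these vertices, and there is a quasisymmetric homeomorphism from the
Julia set onto `S`. -/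
theorem result :
    (∞ : OnePoint ℂ) ∉ julia ∧ IsCompact J ∧ J.Nonempty ∧
    ∀ (v : Fin 3 → EuclideanSpace ℝ (Fin 2)) (L : ℝ), 0 < L →
      (∀ i j, i ≠ j → dist (v i) (v j) = L) →
      ∃ S : Set (EuclideanSpace ℝ (Fin 2)), IsSierpinski v S ∧
        (∀ S' : Set (EuclideanSpace ℝ (Fin 2)), IsSierpinski v S' → S' = S) ∧
        ∃ h : J ≃ₜ S, Quasisymmetric h := by
  refine ⟨?_, ?_, ?_, ?_⟩
  · rw [julia_eq]
    exact fun h => h Pool.Agent.W5h43.SG.isFatou_infty
  · rw [J_eq]
    exact Pool.Agent.W5h43.SG.isCompact_Jf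
  · rw [J_eq]
    obtain ⟨x, _⟩ := Pool.Agent.W5h43.SG.Jm_bij.2 ⟨_, Pool.Agent.W5h43.SG.corner_Kw 0⟩
    exact ⟨x, x.2⟩
  · intro v L hL hv
    rw [J_eq]
    exact Pool.Agent.W5h43.SG.main hL hv

end Pool.Agent.Results.MP_6f5a85_an.SierpinskiJulia
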